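import Pool.Agent.U372.PC.Pencil

set_option autoImplicit false

/-!
# Pencils of quadratic polynomials: the general case
-/

namespace Pool.Agent.U372.PC

open Finset Filter
open Pool.Agent.R490.LGb

lemma far (α β γ : ℤ) (hR : β ^ 2 - α * γ ≠ 0) (x y : ℤ) (hx : |β ^ 2 - α * γ| + |β| + |γ| < x)
    (hy : |β ^ 2 - α * γ| + |β| + |γ| < y) : α * (x * y) + β * (x + y) + γ ≠ 0 := by
  intro h0
  have hγ := abs_nonneg γ
  have hβ := abs_nonneg β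
  have hRn := abs_nonneg (β ^ 2 - α * γ)
  by_cases ha : α = 0
  · subst ha
    have hb : β ≠ 0 := by
      rintro rfl
      apply hR
      ring
    have h1 : β * (x + y) = -γ := by linarith
    have h2 : |β| * (x + y) = |γ| := by
      rw [← abs_neg γ, ← h1, abs_mul, abs_of_pos (by linarith : 0 < x + y)]
    have h3 : 1 ≤ |β| := Int.one_le_abs hb
    nlinarith
  · have h1 : (α * x + β) * (α * y + β) = β ^ 2 - α * γ := by linear_combination α * h0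
    have h2 : |α * x + β| * |α * y + β| = |β ^ 2 - α * γ| := by rw [← abs_mul, h1]
    have h3 : |β ^ 2 - α * γ| < |α * x + β| := by
      have a1 : 1 ≤ |α| := Int.one_le_abs ha
      have a2 : |α * x| - |β| ≤ |α * x + β| := by
        have := abs_sub_abs_le_abs_sub (α * x) (-β)
        rw [abs_neg, sub_neg_eq_add] at this
        exact this
      rw [abs_mul, abs_of_pos (by linarith : 0 < x)] at a2
      nlinarith
    have h4 : 1 ≤ |α * y + β| := by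
      apply Int.one_le_abs
      intro h5
      rw [h5, mul_zero] at h1
      exact hR h1.symm
    nlinarith

lemma pos_far (a b c : ℤ) (h : 0 < a ∨ (a = 0 ∧ 0 < b) ∨ (a = 0 ∧ b = 0 ∧ 0 < c)) (x : ℤ)
    (hx : |b| + |c| < x) : 1 ≤ qv a b c x := by
  have hb := abs_nonneg b
  have hc := abs_nonneg c
  have hb' := neg_abs_le b
  have hc' := neg_abs_le c
  unfold qv
  rcases h with h | ⟨rfl, h⟩ | ⟨rfl, rfl, h⟩
  · have a1 : 0 ≤ (a - 1) * x ^ 2 := mul_nonneg (by linarith) (sq_nonneg x)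
    have a2 : 0 ≤ (b + |b|) * x := mul_nonneg (by linarith) (by linarith)
    have a3 : 0 ≤ x * (x - |b| - 1) := mul_nonneg (by linarith) (by linarith)
    nlinarith
  · have a1 : 0 ≤ (b - 1) * x := mul_nonneg (by linarith) (by linarith)
    nlinarith
  · simp only [zero_mul, zero_add]
    linarith

lemma qv_shift (a b c t x : ℤ) : qv a (2 * a * t + b) (qv a b c t) x = qv a b c (x + t) := by
  unfold qv
  ring

lemma shiftHyp (p2 p1 p0 q2 q1 q0 : ℤ) (hP : 0 < p2 ∨ (p2 = 0 ∧ 0 < p1) ∨ (p2 = 0 ∧ p1 = 0 ∧ 0 < p0))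
    (hres : (p2 * q0 - p0 * q2) ^ 2 - (p2 * q1 - p1 * q2) * (p1 * q0 - p0 * q1) ≠ 0) (J : ℕ)
    (hJ : |(p2 * q0 - p0 * q2) ^ 2 - (p2 * q1 - p1 * q2) * (p1 * q0 - p0 * q1)| + |p2 * q0 - p0 * q2| +
      |p1 * q0 - p0 * q1| + |p1| + |p0| < J) :
    Hyp p2 (2 * p2 * J + p1) (qv p2 p1 p0 J) q2 (2 * q2 * J + q1) (qv q2 q1 q0 J) := by
  have n1 := abs_nonneg ((p2 * q0 - p0 * q2) ^ 2 - (p2 * q1 - p1 * q2) * (p1 * q0 - p0 * q1))
  have n2 := abs_nonneg (p2 * q0 - p0 * q2)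
  have n3 := abs_nonneg (p1 * q0 - p0 * q1)
  have n4 := abs_nonneg p1
  have n5 := abs_nonneg p0
  refine ⟨?_, ?_, ?_⟩
  · intro j
    rw [qv_shift]
    have hj : (0 : ℤ) ≤ j := Int.natCast_nonneg j
    exact pos_far p2 p1 p0 hP _ (by linarith)
  · unfold Rz
    have e : (p2 * qv q2 q1 q0 J - qv p2 p1 p0 J * q2) ^ 2 -
        (p2 * (2 * q2 * J + q1) - (2 * p2 * J + p1) * q2) *
          ((2 * p2 * J + p1) * qv q2 q1 q0 J - qv p2 p1 p0 J * (2 * q2 * J + q1)) =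
        (p2 * q0 - p0 * q2) ^ 2 - (p2 * q1 - p1 * q2) * (p1 * q0 - p0 * q1) := by
      unfold qv
      ring
    rw [e]
    exact hres
  · intro i j
    have hi : (0 : ℤ) ≤ i := Int.natCast_nonneg i
    have hj : (0 : ℤ) ≤ j := Int.natCast_nonneg j
    have h1 := far (p2 * q1 - p1 * q2) (p2 * q0 - p0 * q2) (p1 * q0 - p0 * q1) hres ((i : ℤ) + J) ((j : ℤ) + J)
      (by linarith) (by linarith)
    have e : (p2 * (2 * q2 * J + q1) - (2 * p2 * J + p1) * q2) * ((i : ℤ) * j) +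
        (p2 * qv q2 q1 q0 J - qv p2 p1 p0 J * q2) * ((i : ℤ) + j) +
        ((2 * p2 * J + p1) * qv q2 q1 q0 J - qv p2 p1 p0 J * (2 * q2 * J + q1)) =
        (p2 * q1 - p1 * q2) * (((i : ℤ) + J) * ((j : ℤ) + J)) +
        (p2 * q0 - p0 * q2) * (((i : ℤ) + J) + ((j : ℤ) + J)) + (p1 * q0 - p0 * q1) := by
      unfold qv
      ring
    rw [e]
    exact h1

lemma noFixed_shift (a b c : ℤ) (t : ℤ) (h : NoFixed a b c) : NoFixed a (2 * a * t + b) (qv a b c t) := by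
  constructor
  · intro p hp h2 h1 h0
    have hb : (p : ℤ) ∣ b := (dvd_add_right (Dvd.dvd.mul_right (h2.mul_left 2) t)).1 h1
    apply h.1 p hp h2 hb
    unfold qv at h0
    exact (dvd_add_right (dvd_add (Dvd.dvd.mul_right h2 _) (Dvd.dvd.mul_right hb _))).1 h0
  · rintro ⟨h1, h0⟩
    apply h.2
    have hab : (2 : ℤ) ∣ a + b := by
      have e : a + (2 * a * t + b) = 2 * (a * t) + (a + b) := by ring
      rw [e] at h1
      exact (dvd_add_right (dvd_mul_right _ _)).1 h1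
    refine ⟨hab, ?_⟩
    have h3 : (2 : ℤ) ∣ t ^ 2 - t := by
      have e : t ^ 2 - t = (t - 1) * (t - 1 + 1) := by ring
      rw [e]
      exact (Int.even_mul_succ_self (t - 1)).two_dvd
    have e : qv a b c t = a * (t ^ 2 - t) + (a + b) * t + c := by unfold qv; ring
    rw [e] at h0
    exact (dvd_add_right (dvd_add (Dvd.dvd.mul_left h3 _) (Dvd.dvd.mul_right hab _))).1 h0

open Classical in
/-- the number of the integers `1 ≤ m ≤ T` such that `a m² + b m + c` is at least `2` and has at most `k` prime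
factors (counted with multiplicity), all of them at least `w` -/
noncomputable def apv (a b c : ℤ) (k : ℕ) (w T : ℝ) : ℕ :=
  ((Icc 1 ⌊T⌋₊).filter (fun m : ℕ => ∃ N : ℕ, (N : ℤ) = a * (m : ℤ) ^ 2 + b * m + c ∧ 2 ≤ N ∧
    N.primeFactorsList.length ≤ k ∧ ∀ q : ℕ, q.Prime → q ∣ N → w ≤ q)).card

lemma cnt_le_apv (p2 p1 p0 q2 q1 q0 : ℤ) (J : ℕ)
    (h : Hyp p2 (2 * p2 * J + p1) (qv p2 p1 p0 J) q2 (2 * q2 * J + q1) (qv q2 q1 q0 J)) (k K n : ℕ) (w T : ℝ)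
    (hK : K + J ≤ ⌊T⌋₊) :
    cnt (Aq p2 (2 * p2 * J + p1) (qv p2 p1 p0 J)) (Bz q2 (2 * q2 * J + q1) (qv q2 q1 q0 J)) k K n w ≤
      apv (n * p2 + q2) (n * p1 + q1) (n * p0 + q0) k w T := by
  classical
  unfold cnt apv
  apply card_le_card_of_injOn (fun j => j + J)
  · intro j hj
    rw [mem_coe, mem_filter, mem_Icc] at hj
    obtain ⟨h1, h2, h3, h4⟩ := hj
    have e : (Aq p2 (2 * p2 * J + p1) (qv p2 p1 p0 J) j : ℤ) * n + Bz q2 (2 * q2 * J + q1) (qv q2 q1 q0 J) j =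
        (n * p2 + q2) * ((j + J : ℕ) : ℤ) ^ 2 + (n * p1 + q1) * ((j + J : ℕ) : ℤ) + (n * p0 + q0) := by
      rw [form_eq h]
      unfold qv
      push_cast
      ring
    rw [e] at h2 h3 h4
    beta_reduce
    rw [mem_coe, mem_filter, mem_Icc]
    refine ⟨⟨by omega, by omega⟩, ?_⟩
    obtain ⟨V, hV⟩ : ∃ V : ℤ, V = (n * p2 + q2) * ((j + J : ℕ) : ℤ) ^ 2 + (n * p1 + q1) * ((j + J : ℕ) : ℤ) +
      (n * p0 + q0) := ⟨_, rfl⟩
    rw [← hV] at h2 h3 h4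
    have hN : ((V.toNat : ℕ) : ℤ) = V := Int.toNat_of_nonneg (by linarith)
    refine ⟨V.toNat, ?_, by omega, h3, ?_⟩
    · rw [hN, hV]
    · intro q hq hd
      apply h4 q hq
      rw [← hN]
      exact_mod_cast hd
  · intro u _ v _ huv
    simp only at huv
    omega

open Classical in
/-- **Almost all members of every pencil.** -/
theorem pencil (p2 p1 p0 q2 q1 q0 : ℤ) (hP : 0 < p2 ∨ (p2 = 0 ∧ 0 < p1) ∨ (p2 = 0 ∧ p1 = 0 ∧ 0 < p0))
    (hres : (p2 * q0 - p0 * q2) ^ 2 - (p2 * q1 - p1 * q2) * (p1 * q0 - p0 * q1) ≠ 0)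
    (θ ε : ℝ) (k : ℕ) (hθ : 0 < θ) (hθ1 : θ ≤ 1) (hk : 1 / 8 + 25 / (12 * θ) < k) (hε : 0 < ε) :
    ∃ κ Λ : ℝ, 0 < κ ∧ 0 < Λ ∧ ∀ l : ℝ, Λ ≤ l → ∃ X₀ : ℕ, ∀ X : ℕ, X₀ ≤ X → ∀ Z L : ℕ,
      (X : ℝ) ^ θ ≤ L → Z + L ≤ X →
      (((Ioc Z (Z + L)).filter (fun n : ℕ => NoFixed (n * p2 + q2) (n * p1 + q1) (n * p0 + q0) ∧
        (apv (n * p2 + q2) (n * p1 + q1) (n * p0 + q0) k ((X : ℝ) ^ (θ / 10)) (l * Real.log X) : ℝ) <
          κ * l)).card : ℝ) ≤ ε * L := by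
  obtain ⟨J, hJ⟩ : ∃ J : ℕ, |(p2 * q0 - p0 * q2) ^ 2 - (p2 * q1 - p1 * q2) * (p1 * q0 - p0 * q1)| +
      |p2 * q0 - p0 * q2| + |p1 * q0 - p0 * q1| + |p1| + |p0| < J := by
    refine ⟨(|(p2 * q0 - p0 * q2) ^ 2 - (p2 * q1 - p1 * q2) * (p1 * q0 - p0 * q1)| +
      |p2 * q0 - p0 * q2| + |p1 * q0 - p0 * q1| + |p1| + |p0| + 1).toNat, ?_⟩
    have := Int.self_le_toNat (|(p2 * q0 - p0 * q2) ^ 2 - (p2 * q1 - p1 * q2) * (p1 * q0 - p0 * q1)| +
      |p2 * q0 - p0 * q2| + |p1 * q0 - p0 * q1| + |p1| + |p0| + 1)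
    linarith
  have hH := shiftHyp p2 p1 p0 q2 q1 q0 hP hres J hJ
  obtain ⟨κ, Λ, hκ, hΛ, h⟩ := mainQ hH θ ε k hθ hθ1 hk hε
  refine ⟨κ / 2, 2 * Λ, by positivity, by positivity, ?_⟩
  intro l hl
  have hl0 : 0 < l := by linarith
  have tl : Tendsto (fun X : ℕ => Real.log (X : ℝ)) atTop atTop :=
    Real.tendsto_log_atTop.comp tendsto_natCast_atTop_atTop
  obtain ⟨X₀, hX₀⟩ := eventually_atTop.1 ((h (l / 2) (by linarith)).and
    ((tl.eventually_ge_atTop (2 * J / l)).and (tl.eventually_ge_atTop 0)))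
  refine ⟨X₀, ?_⟩
  intro X hX Z L hL hZ
  obtain ⟨g1, g2, g3⟩ := hX₀ X hX
  refine le_trans ?_ (g1 Z L hL hZ)
  have hfl : ⌊l / 2 * Real.log X⌋₊ + J ≤ ⌊l * Real.log X⌋₊ := by
    apply Nat.le_floor
    push_cast
    have a1 : ((⌊l / 2 * Real.log X⌋₊ : ℕ) : ℝ) ≤ l / 2 * Real.log X := Nat.floor_le (by positivity)
    have a2 : (J : ℝ) ≤ l / 2 * Real.log X := by
      rw [div_le_iff₀ hl0] at g2
      linarith
    linarith
  have hsub : (Ioc Z (Z + L)).filter (fun n : ℕ => NoFixed (n * p2 + q2) (n * p1 + q1) (n * p0 + q0) ∧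
        (apv (n * p2 + q2) (n * p1 + q1) (n * p0 + q0) k ((X : ℝ) ^ (θ / 10)) (l * Real.log X) : ℝ) <
          κ / 2 * l) ⊆
      (Ioc Z (Z + L)).filter (fun n => AdmQ p2 (2 * p2 * J + p1) (qv p2 p1 p0 J) q2 (2 * q2 * J + q1)
        (qv q2 q1 q0 J) n ∧
        (cnt (Aq p2 (2 * p2 * J + p1) (qv p2 p1 p0 J)) (Bz q2 (2 * q2 * J + q1) (qv q2 q1 q0 J)) k
          ⌊l / 2 * Real.log X⌋₊ n ((X : ℝ) ^ (θ / 10)) : ℝ) < κ * (l / 2)) := by
    intro n hn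
    rw [mem_filter] at hn ⊢
    obtain ⟨a1, a2, a3⟩ := hn
    refine ⟨a1, ?_, ?_⟩
    · have h1 := noFixed_shift _ _ _ J a2
      unfold AdmQ
      have e1 : (n : ℤ) * (2 * p2 * J + p1) + (2 * q2 * J + q1) =
          2 * (n * p2 + q2) * J + (n * p1 + q1) := by ring
      have e0 : (n : ℤ) * qv p2 p1 p0 J + qv q2 q1 q0 J =
          qv (n * p2 + q2) (n * p1 + q1) (n * p0 + q0) J := by unfold qv; ring
      rw [e1, e0]
      exact h1
    · have h1 := cnt_le_apv p2 p1 p0 q2 q1 q0 J hH k _ n ((X : ℝ) ^ (θ / 10)) _ hfl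
      have h2 : (cnt (Aq p2 (2 * p2 * J + p1) (qv p2 p1 p0 J)) (Bz q2 (2 * q2 * J + q1) (qv q2 q1 q0 J)) k
          ⌊l / 2 * Real.log X⌋₊ n ((X : ℝ) ^ (θ / 10)) : ℝ) ≤
          apv (n * p2 + q2) (n * p1 + q1) (n * p0 + q0) k ((X : ℝ) ^ (θ / 10)) (l * Real.log X) := by
        exact_mod_cast h1
      linarith
  exact_mod_cast card_le_card hsub

end Pool.Agent.U372.PC
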