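import Pool.Agent.R490.GPh

set_option autoImplicit false

/-!
# Pencils of quadratic polynomials: almost primes at the smallest arguments for almost all members
-/

namespace Pool.Agent.U372.PC

open Finset Filter
open Pool.Agent.W123.RP Pool.Agent.H373R2.T7 Pool.Agent.W123.RU Pool.Agent.TH464.PO Pool.Agent.TH464.PW
open Pool.Agent.Y879.AP Pool.Agent.R490.P3b Pool.Agent.R490.LGa Pool.Agent.R490.LGb Pool.Agent.R490.LGd
open Pool.Agent.R490.LGe Pool.Agent.R490.GPg Pool.Agent.R490.GPh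

/-- the value of a quadratic polynomial -/
def qv (a b c x : ℤ) : ℤ := a * x ^ 2 + b * x + c

lemma qv_modEq (a b c : ℤ) (j p : ℕ) : qv a b c j ≡ qv a b c ((j % p : ℕ) : ℤ) [ZMOD p] := by
  have h1 : (j : ℤ) ≡ ((j % p : ℕ) : ℤ) [ZMOD p] := Int.natCast_modEq_iff.2 (Nat.mod_modEq j p).symm
  unfold qv
  exact (((h1.pow 2).mul_left a).add (h1.mul_left b)).add_right c

/-- at most two roots -/
lemma two_roots (a b c : ℤ) (p : ℕ) (hp : p.Prime) (hne : ¬ ((p : ℤ) ∣ a ∧ (p : ℤ) ∣ b ∧ (p : ℤ) ∣ c))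
    (S : Finset ℕ) (hS : ∀ j ∈ S, j < p ∧ (p : ℤ) ∣ qv a b c j) : S.card ≤ 2 := by
  by_contra hc
  push Not at hc
  obtain ⟨u, hu, v, hv, t, ht, huv, hut, hvt⟩ := Finset.two_lt_card.1 hc
  have hpz := Nat.prime_iff_prime_int.1 hp
  have key : ∀ x y : ℕ, x < p → y < p → x ≠ y → (p : ℤ) ∣ qv a b c x → (p : ℤ) ∣ qv a b c y →
      (p : ℤ) ∣ a * ((x : ℤ) + y) + b := by
    intro x y hx hy hxy h1 h2
    have h3 : (p : ℤ) ∣ ((x : ℤ) - y) * (a * ((x : ℤ) + y) + b) := by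
      have := dvd_sub h1 h2
      have e : qv a b c x - qv a b c y = ((x : ℤ) - y) * (a * ((x : ℤ) + y) + b) := by unfold qv; ring
      rwa [e] at this
    rcases hpz.dvd_or_dvd h3 with h4 | h4
    · exfalso
      have h5 : ((x : ℤ) - y).natAbs < p := by omega
      have h6 := Int.eq_zero_of_dvd_of_natAbs_lt_natAbs h4 (by simpa using h5)
      omega
    · exact h4
  have e1 := key u v (hS u hu).1 (hS v hv).1 huv (hS u hu).2 (hS v hv).2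
  have e2 := key u t (hS u hu).1 (hS t ht).1 hut (hS u hu).2 (hS t ht).2
  have e3 : (p : ℤ) ∣ a * ((v : ℤ) - t) := by
    have := dvd_sub e1 e2
    have e : (a * ((u : ℤ) + v) + b) - (a * ((u : ℤ) + t) + b) = a * ((v : ℤ) - t) := by ring
    rwa [e] at this
  have ha : (p : ℤ) ∣ a := by
    rcases hpz.dvd_or_dvd e3 with h4 | h4
    · exact h4
    · exfalso
      have h5 : ((v : ℤ) - t).natAbs < p := by
        have := (hS v hv).1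
        have := (hS t ht).1
        omega
      have h6 := Int.eq_zero_of_dvd_of_natAbs_lt_natAbs h4 (by simpa using h5)
      omega
  have hb : (p : ℤ) ∣ b := (dvd_add_right (Dvd.dvd.mul_right ha _)).1 e1
  apply hne
  refine ⟨ha, hb, ?_⟩
  have h7 := (hS u hu).2
  unfold qv at h7
  exact (dvd_add_right (dvd_add (Dvd.dvd.mul_right ha _) (Dvd.dvd.mul_right hb _))).1 h7

open Classical in
/-- the arguments with all values divisible -/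
lemma cnt_qv (a b c : ℤ) (K : ℕ) (T : Finset ℕ)
    (hT : ∀ p ∈ T, p.Prime ∧ ¬ ((p : ℤ) ∣ a ∧ (p : ℤ) ∣ b ∧ (p : ℤ) ∣ c)) :
    (((Icc 1 K).filter (fun j : ℕ => ∀ p ∈ T, (p : ℤ) ∣ qv a b c j)).card : ℝ) ≤
      ((2 : ℕ) : ℝ) ^ T.card * (K / (∏ p ∈ T, (p : ℝ)) + 1) := by
  have h3 := count_sys (fun p x => (p : ℤ) ∣ qv a b c (x : ℤ)) K T (fun p hp => (hT p hp).1) 1 le_rfl
    (fun p hp hd => (hT p hp).1.one_lt.ne' (Nat.dvd_one.1 hd)) 0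
  have e1 : (Icc 1 K).filter (fun n => n ≡ 0 [MOD 1] ∧ ∀ p ∈ T, (p : ℤ) ∣ qv a b c ((n % p : ℕ) : ℤ)) =
      (Icc 1 K).filter (fun j : ℕ => ∀ p ∈ T, (p : ℤ) ∣ qv a b c j) := by
    apply filter_congr
    intro n _
    constructor
    · rintro ⟨_, h⟩ p hp
      exact (qv_modEq a b c n p).dvd_iff.2 (h p hp)
    · intro h
      exact ⟨Nat.modEq_one, fun p hp => (qv_modEq a b c n p).dvd_iff.1 (h p hp)⟩
  rw [e1, Nat.cast_one, div_one] at h3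
  have h3' : |(((Icc 1 K).filter (fun j : ℕ => ∀ p ∈ T, (p : ℤ) ∣ qv a b c j)).card : ℝ) -
      K * ∏ p ∈ T, ((((range p).filter (fun x : ℕ => (p : ℤ) ∣ qv a b c (x : ℤ))).card : ℝ) / p)| ≤
      ∏ p ∈ T, (((range p).filter (fun x : ℕ => (p : ℤ) ∣ qv a b c (x : ℤ))).card : ℝ) := by
    convert h3
  clear h3
  have hν : ∀ p ∈ T, (((range p).filter (fun x : ℕ => (p : ℤ) ∣ qv a b c (x : ℤ))).card : ℝ) ≤ ((2 : ℕ) : ℝ) := by
    intro p hp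
    have := two_roots a b c p (hT p hp).1 (hT p hp).2 ((range p).filter (fun x : ℕ => (p : ℤ) ∣ qv a b c (x : ℤ)))
      (fun j hj => by
        rw [mem_filter, mem_range] at hj
        exact hj)
    exact_mod_cast this
  have h4 : ∏ p ∈ T, (((range p).filter (fun x : ℕ => (p : ℤ) ∣ qv a b c (x : ℤ))).card : ℝ) ≤
      ((2 : ℕ) : ℝ) ^ T.card := by
    rw [← prod_const]
    exact Finset.prod_le_prod (fun _ _ => Nat.cast_nonneg _) hν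
  have h5 : ∏ p ∈ T, ((((range p).filter (fun x : ℕ => (p : ℤ) ∣ qv a b c (x : ℤ))).card : ℝ) / p) ≤
      ((2 : ℕ) : ℝ) ^ T.card / ∏ p ∈ T, (p : ℝ) := by
    rw [prod_div_distrib]
    exact div_le_div_of_nonneg_right h4 (prod_nonneg fun _ _ => Nat.cast_nonneg _)
  have h6 := (abs_le.1 h3').2
  have h7 : (K : ℝ) * ∏ p ∈ T, ((((range p).filter (fun x : ℕ => (p : ℤ) ∣ qv a b c (x : ℤ))).card : ℝ) / p) ≤
      K * (((2 : ℕ) : ℝ) ^ T.card / ∏ p ∈ T, (p : ℝ)) := mul_le_mul_of_nonneg_left h5 (Nat.cast_nonneg _)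
  have e : ((2 : ℕ) : ℝ) ^ T.card * (K / (∏ p ∈ T, (p : ℝ)) + 1) =
      K * (((2 : ℕ) : ℝ) ^ T.card / ∏ p ∈ T, (p : ℝ)) + ((2 : ℕ) : ℝ) ^ T.card := by ring
  rw [e]
  have h8 := sub_le_iff_le_add.1 (h6.trans h4)
  refine le_trans h8 ?_
  rw [add_comm]
  exact add_le_add_left h7 _

/-- the resultant of the two polynomials -/
def Rz (p2 p1 p0 q2 q1 q0 : ℤ) : ℤ :=
  (p2 * q0 - p0 * q2) ^ 2 - (p2 * q1 - p1 * q2) * (p1 * q0 - p0 * q1)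

/-- the coefficients of `n` -/
def Aq (p2 p1 p0 : ℤ) (j : ℕ) : ℕ := (qv p2 p1 p0 j).toNat

/-- the constant coefficients -/
def Bz (q2 q1 q0 : ℤ) (j : ℕ) : ℤ := qv q2 q1 q0 j

/-- the hypotheses on a normalised pencil -/
structure Hyp (p2 p1 p0 q2 q1 q0 : ℤ) : Prop where
  pos : ∀ j : ℕ, 1 ≤ qv p2 p1 p0 j
  rne : Rz p2 p1 p0 q2 q1 q0 ≠ 0
  kne : ∀ i j : ℕ, (p2 * q1 - p1 * q2) * ((i : ℤ) * j) + (p2 * q0 - p0 * q2) * ((i : ℤ) + j) +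
    (p1 * q0 - p0 * q1) ≠ 0

variable {p2 p1 p0 q2 q1 q0 : ℤ}

lemma Aq_cast (h : Hyp p2 p1 p0 q2 q1 q0) (j : ℕ) : ((Aq p2 p1 p0 j : ℕ) : ℤ) = qv p2 p1 p0 j :=
  Int.toNat_of_nonneg (by linarith [h.pos j])

lemma Aq_pos (h : Hyp p2 p1 p0 q2 q1 q0) (j : ℕ) : 1 ≤ Aq p2 p1 p0 j := by
  have h1 := Aq_cast h j
  have h2 := h.pos j
  omega

lemma Rs_eq (h : Hyp p2 p1 p0 q2 q1 q0) (j j' : ℕ) :
    Rs (Aq p2 p1 p0) (Bz q2 q1 q0) j j' =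
      ((j : ℤ) - j') * ((p2 * q1 - p1 * q2) * ((j : ℤ) * j') + (p2 * q0 - p0 * q2) * ((j : ℤ) + j') +
        (p1 * q0 - p0 * q1)) := by
  unfold Rs
  rw [Aq_cast h, Aq_cast h]
  unfold Bz qv
  ring

lemma Rs_qv (h : Hyp p2 p1 p0 q2 q1 q0) (j j' : ℕ) :
    Rs (Aq p2 p1 p0) (Bz q2 q1 q0) j j' =
      qv (qv p2 p1 p0 j * q2 - qv q2 q1 q0 j * p2) (qv p2 p1 p0 j * q1 - qv q2 q1 q0 j * p1)
        (qv p2 p1 p0 j * q0 - qv q2 q1 q0 j * p0) j' := by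
  unfold Rs
  rw [Aq_cast h, Aq_cast h]
  unfold Bz qv
  ring

lemma dvd_R (p x : ℤ) (h1 : p ∣ qv p2 p1 p0 x) (h2 : p ∣ qv q2 q1 q0 x) : p ∣ Rz p2 p1 p0 q2 q1 q0 := by
  have e : Rz p2 p1 p0 q2 q1 q0 =
      ((p2 * q0 - p0 * q2) * p2 - (p2 * q1 - p1 * q2) * (p1 + x * p2)) * qv q2 q1 q0 x -
      ((p2 * q0 - p0 * q2) * q2 - (p2 * q1 - p1 * q2) * (q1 + x * q2)) * qv p2 p1 p0 x := by
    unfold Rz qv
    ring
  rw [e]
  exact dvd_sub (h2.mul_left _) (h1.mul_left _)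

lemma not_all (p : ℕ) (hp : p.Prime) (hR : ¬ (p : ℤ) ∣ Rz p2 p1 p0 q2 q1 q0) (x : ℤ) :
    ¬ ((p : ℤ) ∣ qv p2 p1 p0 x * q2 - qv q2 q1 q0 x * p2 ∧ (p : ℤ) ∣ qv p2 p1 p0 x * q1 - qv q2 q1 q0 x * p1 ∧
      (p : ℤ) ∣ qv p2 p1 p0 x * q0 - qv q2 q1 q0 x * p0) := by
  rintro ⟨h2, h1, h0⟩
  have hpz := Nat.prime_iff_prime_int.1 hp
  obtain ⟨F, hF⟩ : ∃ F, F = qv p2 p1 p0 x := ⟨_, rfl⟩
  obtain ⟨G, hG⟩ : ∃ G, G = qv q2 q1 q0 x := ⟨_, rfl⟩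
  rw [← hF, ← hG] at h2 h1 h0
  have g1 : (p : ℤ) ∣ F * Rz p2 p1 p0 q2 q1 q0 := by
    have e : F * Rz p2 p1 p0 q2 q1 q0 =
        ((p2 * q0 - p0 * q2) * p2 - (p2 * q1 - p1 * q2) * p1) * (F * q0 - G * p0) +
        ((p2 * q1 - p1 * q2) * p0) * (F * q1 - G * p1) +
        (-(p2 * q0 - p0 * q2) * p0) * (F * q2 - G * p2) := by
      unfold Rz
      ring
    rw [e]
    exact dvd_add (dvd_add (h0.mul_left _) (h1.mul_left _)) (h2.mul_left _)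
  have g2 : (p : ℤ) ∣ G * Rz p2 p1 p0 q2 q1 q0 := by
    have e : G * Rz p2 p1 p0 q2 q1 q0 =
        ((p2 * q0 - p0 * q2) * q2 - (p2 * q1 - p1 * q2) * q1) * (F * q0 - G * p0) +
        ((p2 * q1 - p1 * q2) * q0) * (F * q1 - G * p1) +
        (-(p2 * q0 - p0 * q2) * q0) * (F * q2 - G * p2) := by
      unfold Rz
      ring
    rw [e]
    exact dvd_add (dvd_add (h0.mul_left _) (h1.mul_left _)) (h2.mul_left _)
  have g3 := (hpz.dvd_or_dvd g1).resolve_right hR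
  have g4 := (hpz.dvd_or_dvd g2).resolve_right hR
  rw [hF] at g3
  rw [hG] at g4
  exact hR (dvd_R _ x g3 g4)

lemma not_dvd_of_lt (n : ℤ) (hn : n ≠ 0) (p : ℕ) (hp : n.natAbs < p) : ¬ (p : ℤ) ∣ n := by
  intro hd
  have h1 : p ∣ n.natAbs := Int.natCast_dvd.1 hd
  have h2 := Nat.le_of_dvd (Nat.pos_of_ne_zero (Int.natAbs_ne_zero.2 hn)) h1
  omega

/-- the size of the values -/
lemma qv_size (a b c : ℤ) (S : ℕ) (hS : a.natAbs + b.natAbs + c.natAbs ≤ S) (j : ℕ) (hj : 1 ≤ j) :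
    (qv a b c j).natAbs ≤ (j + 1) ^ (S + 2) := by
  have h1 : (qv a b c j).natAbs ≤ a.natAbs * j ^ 2 + b.natAbs * j + c.natAbs := by
    unfold qv
    refine (Int.natAbs_add_le _ _).trans ?_
    have := Int.natAbs_add_le (a * (j : ℤ) ^ 2) (b * j)
    rw [Int.natAbs_mul, Int.natAbs_mul, Int.natAbs_pow, Int.natAbs_natCast] at this
    omega
  refine h1.trans ?_
  have a1 : j ^ 2 ≤ (j + 1) ^ 2 := Nat.pow_le_pow_left (by omega) 2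
  have a2 : j ≤ (j + 1) ^ 2 := by nlinarith
  have a3 : 1 ≤ (j + 1) ^ 2 := Nat.one_le_pow _ _ (by omega)
  have b1 := Nat.mul_le_mul_left a.natAbs a1
  have b2 := Nat.mul_le_mul_left b.natAbs a2
  have b3 := Nat.mul_le_mul_left c.natAbs a3
  have b4 : (a.natAbs + b.natAbs + c.natAbs) * (j + 1) ^ 2 ≤ S * (j + 1) ^ 2 := Nat.mul_le_mul_right _ hS
  have h2 : S < 2 ^ S := Nat.lt_two_pow_self
  have h3 : 2 ^ S ≤ (j + 1) ^ S := Nat.pow_le_pow_left (by omega) _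
  have h4 : S * (j + 1) ^ 2 ≤ (j + 1) ^ S * (j + 1) ^ 2 := Nat.mul_le_mul_right _ (by omega)
  rw [pow_add]
  rw [add_mul, add_mul] at b4
  omega

/-- the exponent -/
def Sz (p2 p1 p0 q2 q1 q0 : ℤ) : ℕ :=
  p2.natAbs + p1.natAbs + p0.natAbs + q2.natAbs + q1.natAbs + q0.natAbs

lemma datQ (h : Hyp p2 p1 p0 q2 q1 q0) : Dat (Aq p2 p1 p0) (Bz q2 q1 q0) (Sz p2 p1 p0 q2 q1 q0 + 2)
    (Rz p2 p1 p0 q2 q1 q0).natAbs := by
  refine ⟨fun j _ => Aq_pos h j, ?_, ?_, ?_, ?_⟩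
  · intro j hj
    have h1 := qv_size p2 p1 p0 (Sz p2 p1 p0 q2 q1 q0) (by unfold Sz; omega) j hj
    have h2 := Aq_cast h j
    have h3 : (qv p2 p1 p0 j).natAbs = Aq p2 p1 p0 j := by rw [← h2, Int.natAbs_natCast]
    rw [h3] at h1
    exact h1
  · intro j hj
    exact qv_size q2 q1 q0 (Sz p2 p1 p0 q2 q1 q0) (by unfold Sz; omega) j hj
  · intro j _ p hp hw h1 h2
    have h3 : (p : ℤ) ∣ qv p2 p1 p0 j := by
      rw [← Aq_cast h j]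
      exact_mod_cast h1
    exact not_dvd_of_lt _ h.rne p hw (dvd_R _ _ h3 h2)
  · intro j j' _ _ hne
    rw [Rs_eq h]
    apply mul_ne_zero _ (h.kne j j')
    omega

/-- the bound for the divisor sums -/
lemma dsum (w y K M : ℕ) (hw : 28 ≤ w) (J : Finset ℕ) (g : ℕ → ℕ) (hg : ∀ j ∈ J, 1 ≤ g j ∧ g j ≤ M)
    (hc : ∀ T ⊆ Pw w M, ((J.filter (fun j => ∀ p ∈ T, p ∣ g j)).card : ℝ) ≤
      ((2 : ℕ) : ℝ) ^ T.card * (K / (∏ p ∈ T, (p : ℝ)) + 1)) :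
    ∑ j ∈ J, (tw w y (g j) ^ 3 - 1) ≤ K * (56 / (w : ℝ)) + ((Vz M)⁻¹) ^ 28 := by
  have h1 := sum_tw3 w y M K 2 J g hg hc
  have h2 := prod_sq' w M 2 (by omega) (by omega)
  have h3 := prod_one' w M 2
  have h4 : (K : ℝ) * (∏ p ∈ Pw w M, (1 + 14 * ((2 : ℕ) : ℝ) / (p : ℝ) ^ 2) - 1) ≤ K * (56 / (w : ℝ)) := by
    apply mul_le_mul_of_nonneg_left _ (Nat.cast_nonneg _)
    refine h2.trans (le_of_eq ?_)
    norm_num
  have h5 : ((Vz M)⁻¹) ^ (14 * 2) = ((Vz M)⁻¹) ^ 28 := by norm_num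
  rw [h5] at h3
  linarith

open Classical in
lemma colA (h : Hyp p2 p1 p0 q2 q1 q0) (w y K M : ℕ) (hw : 28 ≤ w)
    (hw2 : p2.natAbs + p1.natAbs + p0.natAbs ≤ w) (hM : ∀ j ∈ Icc 1 K, Aq p2 p1 p0 j ≤ M) :
    ∑ j ∈ Icc 1 K, (tw w y (Aq p2 p1 p0 j) ^ 3 - 1) ≤ K * (56 / (w : ℝ)) + ((Vz M)⁻¹) ^ 28 := by
  apply dsum w y K M hw
  · intro j hj
    exact ⟨Aq_pos h j, hM j hj⟩
  · intro T hT
    have h2 := cnt_qv p2 p1 p0 K T (fun p hp => by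
      have hpp := mem_Pw.1 (hT hp)
      refine ⟨hpp.2.2, ?_⟩
      rintro ⟨h2, h1, h0⟩
      have z : ∀ n : ℤ, n.natAbs ≤ w → (p : ℤ) ∣ n → n = 0 := by
        intro n hn hd
        by_contra hne
        exact not_dvd_of_lt n hne p (by omega) hd
      have z2 := z p2 (by omega) h2
      have z1 := z p1 (by omega) h1
      have z0 := z p0 (by omega) h0
      have := h.pos 0
      rw [z2, z1, z0] at this
      unfold qv at this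
      norm_num at this)
    refine le_trans (le_of_eq ?_) h2
    congr 2
    apply filter_congr
    intro j _
    apply forall_congr'
    intro p
    apply imp_congr_right
    intro _
    rw [← Aq_cast h j]
    exact Int.natCast_dvd_natCast.symm

open Classical in
lemma rowR (h : Hyp p2 p1 p0 q2 q1 q0) (w y K j M : ℕ) (hw : 28 ≤ w)
    (hR : (Rz p2 p1 p0 q2 q1 q0).natAbs ≤ w) (hj : j ∈ Icc 1 K)
    (hM : ∀ j' ∈ Icc 1 K, (Rs (Aq p2 p1 p0) (Bz q2 q1 q0) j j').natAbs ≤ M) :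
    ∑ j' ∈ Icc 1 K, (if j = j' then 0 else tw w y (Rs (Aq p2 p1 p0) (Bz q2 q1 q0) j j').natAbs ^ 3 - 1) ≤
      K * (56 / (w : ℝ)) + ((Vz M)⁻¹) ^ 28 := by
  have e1 : ∑ j' ∈ Icc 1 K, (if j = j' then 0 else
      tw w y (Rs (Aq p2 p1 p0) (Bz q2 q1 q0) j j').natAbs ^ 3 - 1) =
      ∑ j' ∈ (Icc 1 K).erase j, (tw w y (Rs (Aq p2 p1 p0) (Bz q2 q1 q0) j j').natAbs ^ 3 - 1) := by
    rw [← add_sum_erase _ _ hj, if_pos rfl, zero_add]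
    apply sum_congr rfl
    intro j' hj'
    rw [mem_erase] at hj'
    rw [if_neg (Ne.symm hj'.1)]
  rw [e1]
  have hd := datQ h
  have hj1 := mem_Icc.1 hj
  apply dsum w y K M hw
  · intro j' hj'
    rw [mem_erase] at hj'
    have hj1' := mem_Icc.1 hj'.2
    refine ⟨?_, hM j' hj'.2⟩
    exact Nat.pos_of_ne_zero (Int.natAbs_ne_zero.2 (hd.res j j' hj1.1 hj1'.1 (Ne.symm hj'.1)))
  · intro T hT
    have h2 := cnt_qv (qv p2 p1 p0 j * q2 - qv q2 q1 q0 j * p2) (qv p2 p1 p0 j * q1 - qv q2 q1 q0 j * p1)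
        (qv p2 p1 p0 j * q0 - qv q2 q1 q0 j * p0) K T (fun p hp => by
      have hpp := mem_Pw.1 (hT hp)
      exact ⟨hpp.2.2, not_all p hpp.2.2 (not_dvd_of_lt _ h.rne p (by omega)) _⟩)
    refine le_trans ?_ h2
    have h3 : (((Icc 1 K).erase j).filter (fun j' : ℕ => ∀ p ∈ T,
        p ∣ (Rs (Aq p2 p1 p0) (Bz q2 q1 q0) j j').natAbs)).card ≤
        ((Icc 1 K).filter (fun j' : ℕ => ∀ p ∈ T, (p : ℤ) ∣ qv (qv p2 p1 p0 j * q2 - qv q2 q1 q0 j * p2)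
          (qv p2 p1 p0 j * q1 - qv q2 q1 q0 j * p1) (qv p2 p1 p0 j * q0 - qv q2 q1 q0 j * p0) j')).card := by
      apply card_le_card
      intro j' hj'
      rw [mem_filter, mem_erase] at hj'
      rw [mem_filter]
      refine ⟨hj'.1.2, fun p hp => ?_⟩
      rw [← Rs_qv h]
      exact Int.natCast_dvd.2 (hj'.2 p hp)
    exact_mod_cast h3

/-- the excess on average -/
lemma excQ (h : Hyp p2 p1 p0 q2 q1 q0) (w : ℕ) (_ : 14 ≤ w)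
    (hl : (Rz p2 p1 p0 q2 q1 q0).natAbs + (p2.natAbs + p1.natAbs + p0.natAbs) + 28 ≤ w) :
    ∃ K1 : ℕ, ∀ K : ℕ, K1 ≤ K → ∀ y : ℕ,
    ∑ j ∈ Icc 1 K, ∑ j' ∈ Icc 1 K, exc (Aq p2 p1 p0) (Bz q2 q1 q0) w y j j' ≤ 57 * (K : ℝ) ^ 2 / w := by
  classical
  have hd := datQ h
  obtain ⟨D0, hD0⟩ : ∃ D0, D0 = Sz p2 p1 p0 q2 q1 q0 + 2 := ⟨_, rfl⟩
  rw [← hD0] at hd
  obtain ⟨K1, h1⟩ := log_ev (2 * D0) 28 w (by omega)
  refine ⟨K1, fun K hK y => ?_⟩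
  have h2 := h1 K hK
  obtain ⟨M, hM⟩ : ∃ M, M = 2 * (K + 1) ^ (2 * D0) := ⟨_, rfl⟩
  rw [← hM] at h2
  have hw0 : (0 : ℝ) < w := by exact_mod_cast (by omega : 0 < w)
  have hA : ∀ j ∈ Icc 1 K, Aq p2 p1 p0 j ≤ M := by
    intro j hj
    rw [mem_Icc] at hj
    refine (hd.szA j hj.1).trans ?_
    rw [hM]
    have a1 : (j + 1) ^ D0 ≤ (K + 1) ^ D0 := Nat.pow_le_pow_left (by omega) _
    have a2 : (K + 1) ^ D0 ≤ (K + 1) ^ (2 * D0) := Nat.pow_le_pow_right (by omega) (by omega)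
    omega
  obtain ⟨a, ha⟩ : ∃ a : ℕ → ℝ, a = fun j => tw w y (Aq p2 p1 p0 j) ^ 3 - 1 := ⟨_, rfl⟩
  obtain ⟨E, hE⟩ : ∃ E : ℝ, E = K * (57 / (w : ℝ)) := ⟨_, rfl⟩
  have hcol : ∑ j ∈ Icc 1 K, a j ≤ E := by
    have h3 := colA h w y K M (by omega) (by omega) hA
    rw [ha, hE]
    have e : (K : ℝ) * (57 / (w : ℝ)) = K * (56 / (w : ℝ)) + K / (w : ℝ) := by ring
    rw [e]
    linarith
  have hrow : ∀ j ∈ Icc 1 K, ∑ j' ∈ Icc 1 K, (if j = j' then 0 else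
      tw w y (Rs (Aq p2 p1 p0) (Bz q2 q1 q0) j j').natAbs ^ 3 - 1) ≤ E := by
    intro j hj
    have h3 := rowR h w y K j M (by omega) (by omega) hj (fun j' hj' => by
      rw [hM]
      exact Rs_le hd K j j' hj hj')
    rw [hE]
    have e : (K : ℝ) * (57 / (w : ℝ)) = K * (56 / (w : ℝ)) + K / (w : ℝ) := by ring
    rw [e]
    linarith
  have h4 : ∀ j ∈ Icc 1 K, ∑ j' ∈ Icc 1 K, exc (Aq p2 p1 p0) (Bz q2 q1 q0) w y j j' ≤
      (K * a j + E + E) / 3 := by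
    intro j hj
    have h5 : ∀ j' ∈ Icc 1 K, exc (Aq p2 p1 p0) (Bz q2 q1 q0) w y j j' ≤
        (a j + a j' + (if j = j' then 0 else
          tw w y (Rs (Aq p2 p1 p0) (Bz q2 q1 q0) j j').natAbs ^ 3 - 1)) / 3 := by
      intro j' _
      rw [ha]
      unfold exc
      split_ifs with hne
      · have a1 := cube_ge w y (Aq p2 p1 p0 j)
        have a2 := cube_ge w y (Aq p2 p1 p0 j')
        simp only
        linarith
      · exact amgm3 _ _ _ (one_le_tw _ _ _) (one_le_tw _ _ _) (one_le_tw _ _ _)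
    refine (sum_le_sum h5).trans ?_
    rw [← sum_div, sum_add_distrib, sum_add_distrib, sum_const, nsmul_eq_mul, Nat.card_Icc, Nat.add_sub_cancel]
    have h6 := hrow j hj
    linarith
  refine (sum_le_sum h4).trans ?_
  rw [← sum_div, sum_add_distrib, sum_add_distrib, sum_const, nsmul_eq_mul, ← mul_sum, Nat.card_Icc,
    Nat.add_sub_cancel]
  have h7 : (K : ℝ) * ∑ j ∈ Icc 1 K, a j ≤ K * E := mul_le_mul_of_nonneg_left hcol (Nat.cast_nonneg _)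
  have e : 57 * (K : ℝ) ^ 2 / w = K * E := by rw [hE]; ring
  rw [e]
  linarith

/-- no fixed divisor -/
def NoFixed (a b c : ℤ) : Prop :=
  (∀ p : ℕ, p.Prime → (p : ℤ) ∣ a → (p : ℤ) ∣ b → ¬ (p : ℤ) ∣ c) ∧ ¬ ((2 : ℤ) ∣ a + b ∧ (2 : ℤ) ∣ c)

/-- the admissible `n` -/
def AdmQ (p2 p1 p0 q2 q1 q0 : ℤ) (n : ℕ) : Prop := NoFixed (n * p2 + q2) (n * p1 + q1) (n * p0 + q0)

lemma form_eq (h : Hyp p2 p1 p0 q2 q1 q0) (n j : ℕ) :
    (Aq p2 p1 p0 j : ℤ) * n + Bz q2 q1 q0 j = qv (n * p2 + q2) (n * p1 + q1) (n * p0 + q0) j := by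
  rw [Aq_cast h]
  unfold Bz qv
  ring

lemma fewQ (h : Hyp p2 p1 p0 q2 q1 q0) (n : ℕ) (hn : AdmQ p2 p1 p0 q2 q1 q0 n) (p : ℕ) (hp : p.Prime) :
    nuB (fun p j => (p : ℤ) ∣ (Aq p2 p1 p0 j : ℤ) * n + Bz q2 q1 q0 j) p ≤ 2 ∧
    nuB (fun p j => (p : ℤ) ∣ (Aq p2 p1 p0 j : ℤ) * n + Bz q2 q1 q0 j) p < p := by
  classical
  unfold nuB
  have key : ∀ S : Finset ℕ, (∀ j ∈ S, j < p ∧ (p : ℤ) ∣ qv (n * p2 + q2) (n * p1 + q1) (n * p0 + q0) j) →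
      S.card ≤ 2 ∧ S.card < p := by
    intro S hS
    have h2 := two_roots _ _ _ p hp (fun hh => hn.1 p hp hh.1 hh.2.1 hh.2.2) S hS
    refine ⟨h2, ?_⟩
    rcases Nat.lt_or_ge 2 p with h3 | h3
    · omega
    · have hp2 : p = 2 := le_antisymm h3 hp.two_le
      subst hp2
      by_contra hc
      push Not at hc
      have h4 : S ⊆ range 2 := fun j hj => mem_range.2 (hS j hj).1
      have h5 : S = range 2 := eq_of_subset_of_card_le h4 (by rw [card_range]; exact hc)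
      have m0 := (hS 0 (by rw [h5]; simp)).2
      have m1 := (hS 1 (by rw [h5]; simp)).2
      unfold qv at m0 m1
      simp only [Nat.cast_zero, Nat.cast_one, Nat.cast_ofNat] at m0 m1
      apply hn.2
      constructor
      · omega
      · omega
  apply key
  intro j hj
  simp only [mem_filter, mem_range] at hj
  rw [form_eq h] at hj
  exact hj

lemma perQ (h : Hyp p2 p1 p0 q2 q1 q0) (n : ℕ) (hn : AdmQ p2 p1 p0 q2 q1 q0 n) :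
    PerB (fun p j => (p : ℤ) ∣ (Aq p2 p1 p0 j : ℤ) * n + Bz q2 q1 q0 j) 2 := by
  refine ⟨fun p j => ?_, fun p hp => (fewQ h n hn p hp).1⟩
  show (p : ℤ) ∣ (Aq p2 p1 p0 j : ℤ) * n + Bz q2 q1 q0 j ↔
    (p : ℤ) ∣ (Aq p2 p1 p0 (j % p) : ℤ) * n + Bz q2 q1 q0 (j % p)
  rw [form_eq h, form_eq h]
  exact (qv_modEq _ _ _ j p).dvd_iff

open Classical in
/-- **Normalised pencils.** -/
theorem mainQ (h : Hyp p2 p1 p0 q2 q1 q0) (θ ε : ℝ) (k : ℕ) (hθ : 0 < θ) (hθ1 : θ ≤ 1)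
    (hk : 1 / 8 + 25 / (12 * θ) < k) (hε : 0 < ε) :
    ∃ κ Λ : ℝ, 0 < κ ∧ 0 < Λ ∧ ∀ l : ℝ, Λ ≤ l → ∀ᶠ X : ℕ in atTop, ∀ Z L : ℕ,
      (X : ℝ) ^ θ ≤ L → Z + L ≤ X →
      (((Ioc Z (Z + L)).filter (fun n => AdmQ p2 p1 p0 q2 q1 q0 n ∧
        (cnt (Aq p2 p1 p0) (Bz q2 q1 q0) k ⌊l * Real.log X⌋₊ n ((X : ℝ) ^ (θ / 10)) : ℝ) < κ * l)).card : ℝ) ≤
        ε * L := by
  refine mainH (datQ h) (AdmQ p2 p1 p0 q2 q1 q0) ?_ θ ε k hθ hθ1 hk hε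
  intro η hη
  exact avg_of2 2 (by norm_num) (Aq p2 p1 p0) (Bz q2 q1 q0) (AdmQ p2 p1 p0 q2 q1 q0)
    ((Rz p2 p1 p0 q2 q1 q0).natAbs + (p2.natAbs + p1.natAbs + p0.natAbs) + 28) 57
    (fun w hw hl => excQ h w hw hl) (fun n hn => perQ h n hn) (fun n hn p hp => (fewQ h n hn p hp).2)
    (Rz p2 p1 p0 q2 q1 q0).natAbs η hη

end Pool.Agent.U372.PC
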